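import Mathlib

set_option autoImplicit false

/-!
# Optimal edge colourings of complete graphs: definitions
-/

namespace Q130.RC

variable {V : Type*}

/-- `c` is a proper edge colouring of the complete graph on `V`: two edges `uv`, `uw` sharing the
vertex `u` get different colours. -/
def ProperKn (c : Sym2 V → ℕ) : Prop :=
  ∀ u v w : V, u ≠ v → u ≠ w → v ≠ w → c s(u, v) ≠ c s(u, w)

/-- The number of colours that `c` uses on the edges of the complete graph on `V`. -/
noncomputable def numColours (c : Sym2 V → ℕ) : ℕ :=
  (c '' (⊤ : SimpleGraph V).edgeSet).ncard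

/-- `c` is an optimal edge colouring of the complete graph on `V`: it is proper and no proper
colouring uses fewer colours. -/
def OptimalKn (c : Sym2 V → ℕ) : Prop :=
  ProperKn c ∧ ∀ c' : Sym2 V → ℕ, ProperKn c' → numColours c ≤ numColours c'

/-- `c` has a rainbow cycle of length `l` in the complete graph on `V`. -/
def HasRainbowCycle (c : Sym2 V → ℕ) (l : ℕ) : Prop :=
  ∃ (v : V) (w : (⊤ : SimpleGraph V).Walk v v), w.IsCycle ∧ w.length = l ∧ (w.edges.map c).Nodup

end Q130.RC
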