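import Pool.Agent.Q130.RC.Defs

set_option autoImplicit false

namespace Q130.RC

open SimpleGraph

/-- the group -/
abbrev G2 (k : ℕ) := Fin k → ZMod 2

theorem add_self' {k : ℕ} (x : G2 k) : x + x = 0 := by
  ext i; simpa using CharTwo.add_self_eq_zero (x i)

theorem add_eq_zero_iff' {k : ℕ} {x y : G2 k} : x + y = 0 ↔ x = y := by
  constructor
  · intro h
    have : x + y + y = y := by rw [h, zero_add]
    rwa [add_assoc, add_self', add_zero] at this
  · rintro rfl; exact add_self' x

/-- The sum of all elements of `(ZMod 2)^k` vanishes for `k ≥ 2`. -/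
theorem sum_all {k : ℕ} (hk : 2 ≤ k) : ∑ x : G2 k, x = 0 := by
  classical
  ext i
  rw [Finset.sum_apply, Pi.zero_apply]
  obtain ⟨j, hj⟩ : ∃ j : Fin k, j ≠ i := by
    by_cases h : (⟨0, by omega⟩ : Fin k) = i
    · exact ⟨⟨1, by omega⟩, fun h' => by rw [← h'] at h; simp at h⟩
    · exact ⟨_, h⟩
  refine Finset.sum_involution (fun x _ => Function.update x j (x j + 1)) ?_ ?_ ?_ ?_
  · intro x _
    rw [Function.update_of_ne hj.symm]
    exact CharTwo.add_self_eq_zero _
  · intro x _ _ h
    have := congrFun h j
    rw [Function.update_self] at this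
    have h1 : (1 : ZMod 2) = 0 := by simpa using this
    exact absurd h1 (by decide)
  · intro x _; exact Finset.mem_univ _
  · intro x _
    ext t
    by_cases ht : t = j
    · subst ht
      simp only [Function.update_self]
      rw [add_assoc, CharTwo.add_self_eq_zero, add_zero]
    · simp only [Function.update_of_ne ht]

variable {V : Type*} {k : ℕ}

/-- encoding of group elements as colours -/
noncomputable def enc : G2 k → ℕ := fun x => Fintype.equivFin (G2 k) x

theorem enc_inj : Function.Injective (enc (k := k)) := fun _ _ h =>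
  (Fintype.equivFin (G2 k)).injective (Fin.ext h)

/-- group value of an edge -/
def val (e : V → G2 k) : Sym2 V → G2 k := Sym2.lift ⟨fun x y => e x + e y, fun x y => add_comm _ _⟩

/-- the colouring -/
noncomputable def col (e : V → G2 k) : Sym2 V → ℕ := fun s => enc (val e s)

theorem walk_sum (e : V → G2 k) {G : SimpleGraph V} {a b : V} (w : G.Walk a b) :
    (w.edges.map (val e)).sum = e a + e b := by
  induction w with
  | nil => simp [add_self']
  | cons h p ih =>
    rename_i a b c
    rw [Walk.edges_cons, List.map_cons, List.sum_cons, ih]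
    have : val e s(a, b) = e a + e b := rfl
    rw [this]
    have h2 : e a + e b + (e b + e c) = e a + (e b + e b) + e c := by abel
    rw [h2, add_self', add_zero]

theorem proper (e : V → G2 k) (he : Function.Injective e) : ProperKn (col e) := by
  intro u v w _ _ hvw h
  have h1 : e u + e v = e u + e w := enc_inj h
  exact hvw (he (add_left_cancel h1))

/-- values of edges of a closed walk: distinct nonzero elements with sum zero -/
theorem rainbow_finset (e : V → G2 k) (he : Function.Injective e) {v : V}
    (w : (⊤ : SimpleGraph V).Walk v v) (hw : (w.edges.map (col e)).Nodup) :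
    ∃ S : Finset (G2 k), S.card = w.length ∧ (0 : G2 k) ∉ S ∧ ∑ x ∈ S, x = 0 := by
  classical
  have hnd : (w.edges.map (val e)).Nodup := by
    have : w.edges.map (col e) = (w.edges.map (val e)).map enc := by
      rw [List.map_map]; rfl
    rw [this] at hw
    exact List.Nodup.of_map _ hw
  refine ⟨(w.edges.map (val e)).toFinset, ?_, ?_, ?_⟩
  · rw [List.toFinset_card_of_nodup hnd, List.length_map, Walk.length_edges]
  · intro h
    rw [List.mem_toFinset, List.mem_map] at h
    obtain ⟨s, hs1, hs2⟩ := h
    have hadj := Walk.edges_subset_edgeSet _ hs1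
    induction s with
    | h x y =>
      rw [mem_edgeSet, top_adj] at hadj
      exact hadj (he (add_eq_zero_iff'.1 hs2))
  · have := List.sum_toFinset (id : G2 k → G2 k) hnd
    simp only [id_eq, List.map_id] at this
    rw [this, walk_sum, add_self']

/-- No set of `2 ^ k - 2` distinct nonzero elements has sum zero. -/
theorem no_set1 (hk : 2 ≤ k) (S : Finset (G2 k)) (h0 : (0 : G2 k) ∉ S) (hs : ∑ x ∈ S, x = 0)
    (hc : S.card + 2 = 2 ^ k) : False := by
  classical
  have hcard : Fintype.card (G2 k) = 2 ^ k := by simp [ZMod.card]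
  have h1 : (insert 0 S)ᶜ.card = 1 := by
    rw [Finset.card_compl, hcard, Finset.card_insert_of_notMem h0]; omega
  obtain ⟨m, hm⟩ := Finset.card_eq_one.1 h1
  have h2 := Finset.sum_add_sum_compl (insert 0 S) (fun x : G2 k => x)
  rw [hm, Finset.sum_singleton, Finset.sum_insert h0, hs, sum_all hk, zero_add, zero_add] at h2
  have h3 : m ∈ (insert 0 S)ᶜ := by rw [hm]; exact Finset.mem_singleton_self m
  rw [h2, Finset.mem_compl] at h3
  exact h3 (Finset.mem_insert_self _ _)

/-- No set of `2 ^ k - 3` distinct nonzero elements has sum zero. -/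
theorem no_set2 (hk : 2 ≤ k) (S : Finset (G2 k)) (h0 : (0 : G2 k) ∉ S) (hs : ∑ x ∈ S, x = 0)
    (hc : S.card + 3 = 2 ^ k) : False := by
  classical
  have hcard : Fintype.card (G2 k) = 2 ^ k := by simp [ZMod.card]
  have h1 : (insert 0 S)ᶜ.card = 2 := by
    rw [Finset.card_compl, hcard, Finset.card_insert_of_notMem h0]; omega
  obtain ⟨m, m', hne, hm⟩ := Finset.card_eq_two.1 h1
  have h2 := Finset.sum_add_sum_compl (insert 0 S) (fun x : G2 k => x)
  rw [hm, Finset.sum_pair hne, Finset.sum_insert h0, hs, sum_all hk, zero_add, zero_add,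
    add_eq_zero_iff'] at h2
  exact hne h2

/-- A proper colouring uses at least `n - 1` colours. -/
theorem le_num [Finite V] [Nonempty V] (c : Sym2 V → ℕ) (hc : ProperKn c) :
    Nat.card V ≤ numColours c + 1 := by
  classical
  obtain ⟨v⟩ := ‹Nonempty V›
  have hsub : (fun w => c s(v, w)) '' {w | w ≠ v} ⊆ c '' (⊤ : SimpleGraph V).edgeSet := by
    rintro _ ⟨w, hw, rfl⟩
    exact ⟨s(v, w), by rw [mem_edgeSet, top_adj]; exact fun h => hw h.symm, rfl⟩
  have h1 := Set.ncard_le_ncard hsub (Set.toFinite _)
  rw [Set.ncard_image_of_injOn] at h1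
  · have h2 : {w : V | w ≠ v} = {v}ᶜ := rfl
    rw [h2, Set.ncard_compl, Set.ncard_singleton] at h1
    unfold numColours
    omega
  · intro a ha b hb hab
    by_contra hne
    exact hc v a b (fun h => ha h.symm) (fun h => hb h.symm) hne hab

/-- A proper colouring of a complete graph of odd order `n ≥ 3` uses at least `n` colours. -/
theorem le_num_odd [Finite V] (hodd : Odd (Nat.card V)) (h2 : 2 ≤ Nat.card V) (c : Sym2 V → ℕ)
    (hc : ProperKn c) : Nat.card V ≤ numColours c := by
  classical
  have : Fintype V := Fintype.ofFinite V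
  have hne : Nonempty V := by
    by_contra h
    rw [not_nonempty_iff] at h
    simp at h2
  by_contra hlt
  push Not at hlt
  have heq : numColours c + 1 = Nat.card V := le_antisymm (by omega) (le_num c hc)
  -- every vertex sees every colour
  have hall : ∀ v : V, (fun w => c s(v, w)) '' {w | w ≠ v} = c '' (⊤ : SimpleGraph V).edgeSet := by
    intro v
    have hsub : (fun w => c s(v, w)) '' {w | w ≠ v} ⊆ c '' (⊤ : SimpleGraph V).edgeSet := by
      rintro _ ⟨w, hw, rfl⟩
      exact ⟨s(v, w), by rw [mem_edgeSet, top_adj]; exact fun h => hw h.symm, rfl⟩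
    have hinj : Set.InjOn (fun w => c s(v, w)) {w | w ≠ v} := by
      intro a ha b hb hab
      by_contra hne
      exact hc v a b (fun h => ha h.symm) (fun h => hb h.symm) hne hab
    have hcard : ((fun w => c s(v, w)) '' {w | w ≠ v}).ncard = Nat.card V - 1 := by
      rw [Set.ncard_image_of_injOn hinj]
      have h3 : {w : V | w ≠ v} = {v}ᶜ := rfl
      rw [h3, Set.ncard_compl, Set.ncard_singleton]
    refine Set.eq_of_subset_of_ncard_le hsub ?_ (Set.toFinite _)
    rw [hcard]
    unfold numColours at heq
    omega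
  obtain ⟨x, y, hxy⟩ : ∃ x y : V, x ≠ y := by
    have : 1 < Fintype.card V := by
      rw [← Nat.card_eq_fintype_card]; omega
    exact Fintype.one_lt_card_iff.1 this
  set i := c s(x, y) with hi
  have hex : ∀ v : V, ∃ w, w ≠ v ∧ c s(v, w) = i := by
    intro v
    have : i ∈ (fun w => c s(v, w)) '' {w | w ≠ v} := by
      rw [hall v]
      exact ⟨s(x, y), by rw [mem_edgeSet, top_adj]; exact hxy, rfl⟩
    obtain ⟨w, hw1, hw2⟩ := this
    exact ⟨w, hw1, hw2⟩
  choose f hf1 hf2 using hex
  have hsum : ∑ _v : V, (1 : ZMod 2) = 0 := by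
    refine Finset.sum_involution (fun v _ => f v) ?_ ?_ ?_ ?_
    · intro v _; decide
    · intro v _ _; exact hf1 v
    · intro v _; exact Finset.mem_univ _
    · intro v _
      by_contra hne
      have h3 : c s(f v, v) = i := by rw [Sym2.eq_swap]; exact hf2 v
      exact hc (f v) (f (f v)) v (hf1 (f v)).symm (hf1 v) hne (by rw [hf2 (f v), h3])
  rw [Finset.sum_const, Finset.card_univ, nsmul_eq_mul, mul_one, ZMod.natCast_eq_zero_iff,
    ← Nat.card_eq_fintype_card] at hsum
  exact (Nat.not_even_iff_odd.2 hodd) (even_iff_two_dvd.2 hsum)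

theorem numColours_le (e : V → G2 k) (he : Function.Injective e) : numColours (col e) + 1 ≤ 2 ^ k := by
  classical
  have hcard : Fintype.card (G2 k) = 2 ^ k := by simp [ZMod.card]
  have hsub : col e '' (⊤ : SimpleGraph V).edgeSet ⊆ enc '' {x : G2 k | x ≠ 0} := by
    rintro _ ⟨s, hs, rfl⟩
    refine ⟨val e s, ?_, rfl⟩
    induction s with
    | h x y =>
      rw [mem_edgeSet, top_adj] at hs
      intro h
      exact hs (he (add_eq_zero_iff'.1 h))
  have h1 := Set.ncard_le_ncard hsub (Set.toFinite _)
  rw [Set.ncard_image_of_injective _ enc_inj] at h1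
  have h2 : {x : G2 k | x ≠ 0} = {0}ᶜ := rfl
  rw [h2, Set.ncard_compl, Set.ncard_singleton, Nat.card_eq_fintype_card, hcard] at h1
  have h3 : 1 ≤ 2 ^ k := Nat.one_le_two_pow
  unfold numColours
  omega

end Q130.RC
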